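import Pool.Agent.R537.ABA.Main

/-!
# ABA-free hypergraphs can be recognised in polynomial time

The case `t = 3` of the question.  A sketch of the proof is in
`Pool/Agent/Results/MP_a698a1_lc/ABAFreeInP.lean`; the proof itself is in
`Pool/Agent/R537/ABA`.
-/

namespace Pool.Agent.Results.MP_71902e_lc.ABAFreePolynomial

open Pool.Agent.NPC Pool.Agent.NPC.R537ABA

/-- There is a polynomial-time algorithm which decides whether a hypergraph, given by its vertices
and hyperedges, is ABA-free for some linear order of its vertices. -/
theorem result : InP (lang (AltFree 3)) := aba_inP

end Pool.Agent.Results.MP_71902e_lc.ABAFreePolynomial
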